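import Pool.Agent.Lib.SmH.Defs
import Pool.Agent.Lib.SmH.Q.Loc

/-!
# HEIGHTS (MP_48b749_nt), block Q, module Sum: sums over the places

`qs S H g bd = ∑ᶠ v, deg v • nm v (g (sg v) - bd v)`, `g` a global 2-finite cochain with `g 1 = 0`,
`bd` the local terms (finite support). It is additive in `(g, bd)` and depends only on the coboundary of
`g` (product formula).
-/

set_option autoImplicit false

open Finset

namespace Pool.Agent.SmH

open Pool.Agent.SmJ

variable {G V V1 Pl M : Type*} [Group G] [AddCommGroup V] [DistribMulAction G V]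
  [AddCommGroup V1] [Module (ZMod 2) V1] [AddCommGroup M] [DistribMulAction G M]

theorem rhoQ_eq_bt (H : HData V M Pl) (chi : G → ZMod 2) (i : ℕ) (Q : V) (t : G) :
    rhoQ H chi i Q t = bt H.e chi i t Q Q := rfl

/-- `bt` depends only on `chi t`. -/
theorem bt_congr_chi (e : ℕ → V → V → M) {chi chi' : G → ZMod 2} {t : G} (hc : chi t = chi' t)
    (i : ℕ) (Q Q' : V) : bt e chi i t Q Q' = bt e chi' i t Q Q' := by
  simp only [bt, dl, tw, hc]

theorem rhoQ_congr_chi (H : HData V M Pl) {chi chi' : G → ZMod 2} {t : G} (hc : chi t = chi' t)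
    (i : ℕ) (Q : V) : rhoQ H chi i Q t = rhoQ H chi' i Q t := bt_congr_chi H.e hc i Q Q

/-- The sum over the places. -/
noncomputable def qs (S : Sys G V V1 Pl) (H : HData V M Pl) (g : G → M) (bd : Pl → M) : M :=
  ∑ᶠ v, H.deg v • H.nm v (g (S.sg v) - bd v)

/-- Normalised 2-finite cochains. -/
structure NC (S : Sys G V V1 Pl) (g : G → M) : Prop where
  tf : S.TF g
  one : g 1 = 0

section

variable {S : Sys G V V1 Pl} {H : HData V M Pl}

theorem NC.fin (h : S.Ok) {g : G → M} (hg : NC S g) : {v | g (S.sg v) ≠ 0}.Finite := by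
  obtain ⟨N, hN, h1⟩ := hg.tf
  refine (h.unr N hN).subset fun v hv hm => hv ?_
  have := h1 1 _ hm
  rwa [one_mul, hg.one] at this

theorem NC.add (h : S.Ok) {g g' : G → M} (hg : NC S g) (hg' : NC S g') :
    NC S (fun t => g t + g' t) :=
  ⟨Sys.TF.comp₂ h hg.tf hg'.tf (fun a b => a + b), by beta_reduce; rw [hg.one, hg'.one, add_zero]⟩

theorem NC.sub (h : S.Ok) {g g' : G → M} (hg : NC S g) (hg' : NC S g') :
    NC S (fun t => g t - g' t) :=
  ⟨Sys.TF.comp₂ h hg.tf hg'.tf (fun a b => a - b), by beta_reduce; rw [hg.one, hg'.one, sub_zero]⟩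

theorem NC.zsmul {g : G → M} (hg : NC S g) (n : ℤ) : NC S (fun t => n • g t) :=
  ⟨hg.tf.comp (fun a => n • a), by beta_reduce; rw [hg.one, smul_zero]⟩

theorem NC.nsmul {g : G → M} (hg : NC S g) (n : ℕ) : NC S (fun t => n • g t) :=
  ⟨hg.tf.comp (fun a => n • a), by beta_reduce; rw [hg.one, smul_zero]⟩

theorem NC.zero (h : S.Ok) : NC S (fun _ => (0 : M)) := ⟨Sys.TF_const h 0, rfl⟩

theorem NC.sum (h : S.Ok) {ι : Type*} (A : Finset ι) {g : ι → G → M}
    (hg : ∀ k ∈ A, NC S (g k)) : NC S (fun t => ∑ k ∈ A, g k t) := by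
  classical
  induction A using Finset.induction_on with
  | empty => simpa using NC.zero (M := M) h
  | insert a A ha ih =>
    have := NC.add h (hg a (Finset.mem_insert_self a A))
      (ih fun k hk => hg k (Finset.mem_insert_of_mem hk))
    refine (iff_of_eq (congrArg _ (funext fun t => ?_))).mp this
    rw [Finset.sum_insert ha]

/-- A 2-finite cochain whose coboundary is normalised is normalised. -/
theorem NC.of_d {g : G → M} (hg : S.TF g) {c : G → G → M}
    (hd : ∀ s t, c s t = g s + s • g t - g (s * t)) (h1 : c 1 1 = 0) : NC S g := by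
  refine ⟨hg, ?_⟩
  have := hd 1 1
  rw [h1, one_smul, one_mul, add_sub_cancel_right] at this
  exact this.symm

theorem term_fin (h : S.Ok) {g : G → M} {bd : Pl → M} (hg : NC S g) (hb : {v | bd v ≠ 0}.Finite) :
    (Function.support fun v => H.deg v • H.nm v (g (S.sg v) - bd v)).Finite := by
  refine ((hg.fin h).union hb).subset fun v hv => ?_
  by_contra hn
  simp only [Set.mem_union, Set.mem_ofPred_eq, not_or, not_not] at hn
  apply hv
  simp only [hn.1, hn.2, sub_self, map_zero, smul_zero]

theorem qs_add (h : S.Ok) {g g' : G → M} {bd bd' : Pl → M} (hg : NC S g) (hg' : NC S g')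
    (hb : {v | bd v ≠ 0}.Finite) (hb' : {v | bd' v ≠ 0}.Finite) :
    qs S H (fun t => g t + g' t) (fun v => bd v + bd' v) = qs S H g bd + qs S H g' bd' := by
  rw [qs, qs, qs, ← finsum_add_distrib (term_fin h hg hb) (term_fin h hg' hb')]
  refine finsum_congr fun v => ?_
  rw [← smul_add, ← map_add]
  congr 2
  abel

theorem qs_zsmul (h : S.Ok) {g : G → M} {bd : Pl → M} (hg : NC S g) (hb : {v | bd v ≠ 0}.Finite)
    (n : ℤ) : qs S H (fun t => n • g t) (fun v => n • bd v) = n • qs S H g bd := by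
  have h1 := (zsmulAddGroupHom n : M →+ M).map_finsum (term_fin (H := H) h hg hb)
  rw [qs, qs]
  refine Eq.trans ?_ h1.symm
  refine finsum_congr fun v => ?_
  change _ = n • (H.deg v • H.nm v (g (S.sg v) - bd v))
  rw [smul_comm n, ← map_zsmul, smul_sub]

theorem qs_nsmul (h : S.Ok) {g : G → M} {bd : Pl → M} (hg : NC S g) (hb : {v | bd v ≠ 0}.Finite)
    (n : ℕ) : qs S H (fun t => n • g t) (fun v => n • bd v) = n • qs S H g bd := by
  have := qs_zsmul (H := H) h hg hb (n : ℤ)
  simpa only [natCast_zsmul] using this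

theorem qs_sub (h : S.Ok) {g g' : G → M} {bd bd' : Pl → M} (hg : NC S g) (hg' : NC S g')
    (hb : {v | bd v ≠ 0}.Finite) (hb' : {v | bd' v ≠ 0}.Finite) :
    qs S H (fun t => g t - g' t) (fun v => bd v - bd' v) = qs S H g bd - qs S H g' bd' := by
  rw [qs, qs, qs, ← finsum_sub_distrib (term_fin h hg hb) (term_fin h hg' hb')]
  refine finsum_congr fun v => ?_
  rw [← smul_sub, ← map_sub]
  congr 2
  abel

theorem qs_zero : qs S H (fun _ => 0) (fun _ => 0) = 0 := by
  rw [qs]
  simp only [sub_self, map_zero, smul_zero, finsum_zero]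

theorem fin_sum {ι : Type*} (A : Finset ι) {bd : ι → Pl → M}
    (hb : ∀ k ∈ A, {v | bd k v ≠ 0}.Finite) : {v | ∑ k ∈ A, bd k v ≠ 0}.Finite := by
  refine (A.finite_toSet.biUnion hb).subset fun v hv => ?_
  by_contra hn
  simp only [Set.mem_iUnion, not_exists, Set.mem_ofPred_eq, not_not] at hn
  exact hv (Finset.sum_eq_zero fun k hk => hn k hk)

/-- Linear combinations. -/
theorem qs_sum (h : S.Ok) {ι : Type*} (A : Finset ι) (n : ι → ℤ) {g : ι → G → M}
    {bd : ι → Pl → M} (hg : ∀ k ∈ A, NC S (g k)) (hb : ∀ k ∈ A, {v | bd k v ≠ 0}.Finite) :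
    ∑ k ∈ A, n k • qs S H (g k) (bd k) =
      qs S H (fun t => ∑ k ∈ A, n k • g k t) (fun v => ∑ k ∈ A, n k • bd k v) := by
  classical
  induction A using Finset.induction_on with
  | empty => simp only [Finset.sum_empty, qs_zero]
  | insert a A ha ih =>
    have hf : ∀ k ∈ insert a A, {v | n k • bd k v ≠ 0}.Finite := fun k hk =>
      (hb k hk).subset fun v hv h0 => hv (by rw [h0, smul_zero])
    rw [Finset.sum_insert ha, ih (fun k hk => hg k (Finset.mem_insert_of_mem hk))
      (fun k hk => hb k (Finset.mem_insert_of_mem hk)),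
      ← qs_zsmul h (hg a (Finset.mem_insert_self a A)) (hb a (Finset.mem_insert_self a A)),
      ← qs_add h ((hg a (Finset.mem_insert_self a A)).zsmul (n a))
        (NC.sum h A fun k hk => (hg k (Finset.mem_insert_of_mem hk)).zsmul (n k))
        (hf a (Finset.mem_insert_self a A))
        (fin_sum A fun k hk => hf k (Finset.mem_insert_of_mem hk))]
    congr 1
    · funext t; rw [Finset.sum_insert ha]
    · funext v; rw [Finset.sum_insert ha]

variable (hH : HOk S H)

include hH

/-- The product formula: only the coboundary matters. -/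
theorem qs_congr (h : S.Ok) {g g' : G → M} {bd : Pl → M} (hg : NC S g) (hg' : NC S g')
    (hb : {v | bd v ≠ 0}.Finite)
    (hd : ∀ s t, g s + s • g t - g (s * t) = g' s + s • g' t - g' (s * t)) :
    qs S H g bd = qs S H g' bd := by
  rw [← sub_eq_zero, ← qs_sub h hg hg' hb hb]
  simp only [sub_self]
  have := hH.prod (fun t => g t - g' t) (NC.sub h hg hg').tf fun s t => by
    have h1 := hd s t
    rw [smul_sub]
    have h2 : g (s * t) = g s + s • g t - (g' s + s • g' t - g' (s * t)) := by
      rw [← h1]; abel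
    rw [h2]; abel
  rw [qs]
  simpa only [sub_zero] using this

/-- A global cocycle has sum zero. -/
theorem qs_coc (h : S.Ok) {g : G → M} (hg : S.TF g)
    (hd : ∀ s t, g (s * t) = g s + s • g t) : qs S H g (fun _ => 0) = 0 := by
  rw [qs]
  simpa only [sub_zero] using hH.prod g hg hd

end

end Pool.Agent.SmH
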